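import Mathlib

/-!
# Project G3 (helper63): the approximate Sato-Tate law for `U(3)`

Statements of the steps.  Every `S_X : Prop` is one job: deliver `theorem t_x : S_X` in a file of your own
(`Pool/Agent/H<you>/G3/X.lean`), which imports only this file (and Mathlib).
The paper proofs are in the docstrings.  No sorry, no axioms, no `native_decide`, no `#`-commands.
-/

set_option autoImplicit false

namespace Pool.Agent.H63.G3

open Finset ComplexConjugate

/-- the exponents `(a - j - k, j, k)` of the monomials of degree `a`, as pairs `(j, k)` -/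
def tri (a : ℕ) : Finset (ℕ × ℕ) := (range (a + 1) ×ˢ range (a + 1)).filter fun p => p.1 + p.2 ≤ a

/-- the monomial of degree `a` with the exponents `(a - j - k, j, k)` -/
def mono (a : ℕ) (x : Fin 3 → ℂ) (p : ℕ × ℕ) : ℂ := x 0 ^ (a - p.1 - p.2) * x 1 ^ p.1 * x 2 ^ p.2

/-- the complete homogeneous symmetric polynomial, the trace on `Sym^a` -/
def hc (a : ℕ) (x : Fin 3 → ℂ) : ℂ := ∑ p ∈ tri a, mono a x p

/-- the eigenvalues with the angles `t` -/
noncomputable def ex (t : Fin 3 → ℝ) (i : Fin 3) : ℂ := Complex.exp ((t i : ℂ) * Complex.I)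

/-- the trace of `Sym^a ⊗ (Sym^b)^* ⊗ det^c` -/
noncomputable def bas (a b : ℕ) (c : ℤ) (t : Fin 3 → ℝ) : ℂ :=
  hc a (ex t) * conj (hc b (ex t)) * Complex.exp ((c * (t 0 + t 1 + t 2) : ℝ) * Complex.I)

/-- the monomial `exp(i ∑ n_j t_j)` -/
noncomputable def mon (n : Fin 3 → ℤ) (t : Fin 3 → ℝ) : ℂ :=
  Complex.exp ((∑ i, (n i : ℝ) * t i : ℝ) * Complex.I)

/-- the symmetrised monomial -/
noncomputable def msym (n : Fin 3 → ℤ) (t : Fin 3 → ℝ) : ℂ :=
  ∑ σ : Equiv.Perm (Fin 3), mon (n ∘ σ) t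

/-- SPAN: a symmetrised monomial with differences of exponents at most `s` is a linear combination of the
`bas a b c` with `a, b ≤ s` of the same total degree.

Proof.  Induction on `s` (all `n` with `n i - n j ≤ s` for all `i, j`).  `msym n` depends only on `n` up to
permutation, so let `n 0 ≥ n 1 ≥ n 2`; multiplying by `det^{n 1}` (that is, shifting all exponents and all
`c` by `n 1`) let `n = (a, 0, -b)`, `a, b ≥ 0`, `a + b ≤ s`; if `a + b < s` use the induction hypothesis.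
For `a = b = 0`: `msym n = 6 = 6 bas 0 0 0`.  Now let `a + b = s > 0`.
On the torus `conj x = x⁻¹`, so `bas a b 0 = ∑_{i, j} mon (i - j)` over all `i, j ∈ ℕ³` with `|i| = a`,
`|j| = b`; `bas a b 0` is a symmetric function of `t`, so averaging over the permutations
`6 bas a b 0 = ∑_{i, j} msym (i - j)`.  All coordinates of `i - j` are in `[-b, a]`, hence all differences
of coordinates are at most `a + b`.  If the difference `a + b` occurs, one coordinate is `a` and one is `-b`,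
so `i = a e_k`, `j = b e_l` with `k ≠ l`, and the third coordinate is `0`; so `i - j` is a permutation of
`(a, 0, -b)` and `msym (i - j) = msym (a, 0, -b)`.  The number `C` of these pairs `(i, j)` is positive
(`i = a e_0`, `j = b e_2` is one; no need to know `C`), hence `C msym (a, 0, -b) = 6 bas a b 0 -
∑' msym (i - j)`, where the sum is over the other pairs, for which all differences are `≤ s - 1` and the
total degree is `a - b`, so that the induction hypothesis applies to each of these terms.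
(It may be convenient to work with the submodule spanned by the functions `bas a b c` with the given bounds
and degree, `Submodule.span ℂ`, and to extract `T, f` only at the end.) -/
def S_SPAN : Prop := ∀ (s : ℕ) (n : Fin 3 → ℤ), (∀ i j, n i - n j ≤ s) →
  ∃ (T : Finset (ℕ × ℕ × ℤ)) (f : ℕ × ℕ × ℤ → ℂ),
    (∀ q ∈ T, q.1 ≤ s ∧ q.2.1 ≤ s ∧ (q.1 : ℤ) - q.2.1 + 3 * q.2.2 = n 0 + n 1 + n 2) ∧
    ∀ t, msym n t = ∑ q ∈ T, f q * bas q.1 q.2.1 q.2.2 t

/-- the density `(1/6) ∏_{i<j} |e^{i t_i} - e^{i t_j}|²` of the Weyl integration formula -/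
noncomputable def weylDensity (t : Fin 3 → ℝ) : ℝ :=
  1 / 6 * (‖ex t 0 - ex t 1‖ ^ 2 * ‖ex t 0 - ex t 2‖ ^ 2 * ‖ex t 1 - ex t 2‖ ^ 2)

/-- the integral of the class function with the values `F t` over `U(3)` (Weyl integration formula) -/
noncomputable def haar (F : (Fin 3 → ℝ) → ℂ) : ℂ :=
  ((1 / (2 * Real.pi) ^ 3 : ℝ) : ℂ) *
    ∫ t in Set.Icc (0 : Fin 3 → ℝ) (fun _ => 2 * Real.pi), F t * (weylDensity t : ℂ)

/-- WEYL: orthogonality for the Weyl density.

Proof.  Let `Δ(x) = (x 0 - x 1) (x 0 - x 2) (x 1 - x 2)` and `A_a(x) = ∑_σ sgn σ · x_{σ 0}^{a+2} x_{σ 1}`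
(the determinant of the rows `x^{a+2}, x, 1`).  Then `hc a x · Δ(x) = A_a(x)` for all `x` (for instance:
`h_a(x, y, z)` satisfies `(x - z) h_a(x, y, z) = h_{a+1}(x, y) - h_{a+1}(y, z)` and
`(x - y) h_a(x, y) = x^{a+1} - y^{a+1}`).  On the torus `|Δ|² = Δ conj Δ`, so
`haar (bas a b c) = (1/6) (2π)^{-3} ∫ A_a conj(A_b) det^c`.  This is `1/6` of the sum over the pairs
`(σ, τ)` with `σ·(a+2, 1, 0) + (c, c, c) = τ·(b+2, 1, 0)` of `sgn σ sgn τ`
(`∫_0^{2π} exp (i n t) dt = 0` for `n ≠ 0`, Fubini for products: `MeasureTheory.integral_fintype_prod...`).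
The least entries are `c` and `0`, so `c = 0`, then `a = b` and `σ = τ`: six pairs, each with the value 1. -/
def S_WEYL : Prop := ∀ (a b : ℕ) (c : ℤ), haar (bas a b c) = if a = b ∧ c = 0 then 1 else 0

/-- KERN: Korovkin's kernel.

Proof.  Let `a_j = sin ((j+1) π / (N+2))`, `0 ≤ j ≤ N`, and `k(u) = |∑ a_j e^{iju}|² / ∑ a_j²
= 1 + 2 ∑_{l=1}^N κ_l cos (l u)`, `κ_l = ∑_j a_j a_{j+l} / ∑ a_j²`.  Since `a_{j-1} + a_{j+1} =
2 cos (π/(N+2)) a_j` with `a_{-1} = a_{N+1} = 0`, `2 ∑_j a_j a_{j+1} = 2 cos (π/(N+2)) ∑ a_j²`, so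
`κ_1 = cos (π/(N+2))` (for `N = 0` it is absent, `cos (π/2) = 0`).  So the mean value of
`sin² (u/2) = (1 - cos u)/2` with respect to `k du / 2π` is `(1 - cos (π/(N+2)))/2 = sin² (π/(2(N+2)))`.
For `|u| ≤ π` one has `|u| ≤ π |sin (u/2)|`, and by Cauchy-Schwarz (or `2 x y ≤ ε x² + y²/ε`) the mean
value of `|u|` is at most `π sin (π/(2(N+2))) ≤ π² / (2(N+2))`. -/
def S_KERN : Prop := ∀ N : ℕ, ∃ κ : ℕ → ℝ, κ 0 = 1 ∧
  (∀ u : ℝ, 0 ≤ 1 + 2 * ∑ l ∈ Icc 1 N, κ l * Real.cos (l * u)) ∧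
  (∫ u in (-Real.pi)..Real.pi, |u| * (1 + 2 * ∑ l ∈ Icc 1 N, κ l * Real.cos (l * u))) ≤
    2 * Real.pi * (Real.pi ^ 2 / (2 * (N + 2)))

/-- `F` is `2π`-periodic in every variable and Lipschitz with the constant `B` for the sum of the
differences of the angles. -/
def Lip (F : (Fin 3 → ℝ) → ℝ) (B : ℝ) : Prop :=
  (∀ t i, F (Function.update t i (t i + 2 * Real.pi)) = F t) ∧
    ∀ t t' : Fin 3 → ℝ, |F t - F t'| ≤ B * ∑ i, |t i - t' i|

/-- `F` is symmetric -/
def Symm (F : (Fin 3 → ℝ) → ℝ) : Prop := ∀ (σ : Equiv.Perm (Fin 3)) t, F (t ∘ σ) = F t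

/-- JACK: Jackson's theorem in three variables.  (You may use `S_KERN` as a hypothesis: deliver
`theorem t_jack (h : S_KERN) : S_JACK`.)

Proof.  With the kernel `k` of `S_KERN` and `P(t) = (2π)^{-3} ∫_{[-π,π]³} F(t - u) k(u 0) k(u 1) k(u 2) du`
one has `|F - P| ≤ B ∑_i mean |u_i| ≤ 3 B π²/(2(N+2))` (the kernels are nonnegative with mean value one),
and `P(t) = ∑_{|n_i| ≤ N} p_n mon n t` with `p_n = κ_{|n 0|} κ_{|n 1|} κ_{|n 2|} F^(n)`,
`F^(n) = (2π)^{-3} ∫_{[-π,π]³} F(s) mon (-n) s ds` (substitute `s = t - u`, use the periodicity: the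
integral over a translated cube is the same; `k(u) = ∑_{|l| ≤ N} κ_{|l|} e^{ilu}`).  If `F` is symmetric,
`F^(n ∘ σ) = F^(n)` (permute the variables).
(You may of course do the smoothing one variable after the other.) -/
def S_JACK : Prop := ∀ (N : ℕ) (F : (Fin 3 → ℝ) → ℝ) (B : ℝ), 0 ≤ B → Lip F B → Symm F →
  ∃ p : (Fin 3 → ℤ) → ℂ, (∀ (σ : Equiv.Perm (Fin 3)) n, p (n ∘ σ) = p n) ∧
    ∀ t, ‖(F t : ℂ) - ∑ n ∈ Fintype.piFinset (fun _ : Fin 3 => Icc (-(N : ℤ)) N), p n * mon n t‖ ≤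
      3 * B * (Real.pi ^ 2 / (2 * (N + 2)))

/-- `Sym^a` is regular: at every `e` the numbers `j d₁ + k (d₁ + d₂)`, `j + k ≤ a`, are pairwise
different; `d₁, d₂` are the differences of the three Hodge numbers. -/
def Regular3 {E : Type} (d1 d2 : E → ℕ) (a : ℕ) : Prop :=
  ∀ e, ∀ j k j' k' : ℕ, j + k ≤ a → j' + k' ≤ a →
    j * d1 e + k * (d1 e + d2 e) = j' * d1 e + k' * (d1 e + d2 e) → j = j' ∧ k = k'

/-- REG3: `Sym^a` is regular if `a gcd(d₁, d₂) < d₁ + d₂`.

Proof.  `(j - j') d₁ = (k' - k) (d₁ + d₂)`, so `(d₁ + d₂)/g` divides `j - j'`, where `g = gcd(d₁, d₂) =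
gcd(d₁, d₁ + d₂)`, and `|j - j'| ≤ a < (d₁ + d₂)/g`, so `j = j'`, and then `k = k'`. -/
def S_REG3 : Prop := ∀ (E : Type) (d1 d2 : E → ℕ) (a : ℕ), (∀ e, 0 < d1 e ∧ 0 < d2 e) →
  (∀ e, a * Nat.gcd (d1 e) (d2 e) < d1 e + d2 e) → Regular3 d1 d2 a

end Pool.Agent.H63.G3
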