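import Pool.Agent.H63.G3.Defs
set_option autoImplicit false
set_option linter.unusedSectionVars false

namespace Pool.Agent.H63.G3

open Filter Topology Finset ComplexConjugate MeasureTheory

theorem cont_ex (i : Fin 3) : Continuous fun t : Fin 3 → ℝ => ex t i := by
  unfold ex
  fun_prop

theorem cont_mono (a : ℕ) (p : ℕ × ℕ) : Continuous fun t : Fin 3 → ℝ => mono a (ex t) p := by
  unfold mono
  exact (((cont_ex 0).pow _).mul ((cont_ex 1).pow _)).mul ((cont_ex 2).pow _)

theorem cont_hc (a : ℕ) : Continuous fun t : Fin 3 → ℝ => hc a (ex t) := by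
  unfold hc
  exact continuous_finsetSum _ fun p _ => cont_mono a p

theorem cont_bas (a b : ℕ) (c : ℤ) : Continuous (bas a b c) := by
  unfold bas
  refine ((cont_hc a).mul (Complex.continuous_conj.comp (cont_hc b))).mul ?_
  fun_prop

theorem cont_mon (n : Fin 3 → ℤ) : Continuous (mon n) := by
  unfold mon
  fun_prop

theorem cont_weyl : Continuous weylDensity := by
  unfold weylDensity
  have h0 := cont_ex 0
  have h1 := cont_ex 1
  have h2 := cont_ex 2
  fun_prop

theorem weyl_nonneg (t : Fin 3 → ℝ) : 0 ≤ weylDensity t := by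
  unfold weylDensity
  positivity

/-- the box -/
def box : Set (Fin 3 → ℝ) := Set.Icc (0 : Fin 3 → ℝ) (fun _ => 2 * Real.pi)

theorem intOn {F : (Fin 3 → ℝ) → ℂ} (hF : Continuous F) :
    IntegrableOn (fun t => F t * (weylDensity t : ℂ)) (Set.Icc (0 : Fin 3 → ℝ) (fun _ => 2 * Real.pi)) := by
  refine ContinuousOn.integrableOn_compact isCompact_Icc ?_
  have := cont_weyl
  exact (hF.mul (Complex.continuous_ofReal.comp this)).continuousOn

theorem haar_sum {κ : Type} (T : Finset κ) (f : κ → ℂ) {G : κ → (Fin 3 → ℝ) → ℂ}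
    (hG : ∀ q ∈ T, Continuous (G q)) :
    haar (fun t => ∑ q ∈ T, f q * G q t) = ∑ q ∈ T, f q * haar (G q) := by
  unfold haar
  have h1 : (fun t : Fin 3 → ℝ => (∑ q ∈ T, f q * G q t) * (weylDensity t : ℂ)) =
      fun t => ∑ q ∈ T, f q * (G q t * (weylDensity t : ℂ)) := by
    funext t
    rw [Finset.sum_mul]
    exact Finset.sum_congr rfl fun q _ => by ring
  rw [h1, integral_finsetSum _ fun q hq => (intOn (hG q hq)).const_mul (f q), Finset.mul_sum]
  refine Finset.sum_congr rfl fun q _ => ?_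
  rw [integral_const_mul]
  ring

theorem haar_sub {F G : (Fin 3 → ℝ) → ℂ} (hF : Continuous F) (hG : Continuous G) :
    haar (fun t => F t - G t) = haar F - haar G := by
  unfold haar
  have h1 : (fun t : Fin 3 → ℝ => (F t - G t) * (weylDensity t : ℂ)) =
      fun t => F t * (weylDensity t : ℂ) - G t * (weylDensity t : ℂ) := by
    funext t
    ring
  rw [h1, integral_sub (intOn hF) (intOn hG)]
  ring

theorem haar_ofReal (F : (Fin 3 → ℝ) → ℝ) : haar (fun t => (F t : ℂ)) = (haarU F : ℂ) := by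
  unfold haar haarU
  have h1 : (fun t : Fin 3 → ℝ => (F t : ℂ) * (weylDensity t : ℂ)) =
      fun t => ((F t * weylDensity t : ℝ) : ℂ) := by
    funext t
    push_cast
    ring
  rw [h1, integral_complex_ofReal]
  push_cast
  ring

theorem bas_zero (t : Fin 3 → ℝ) : bas 0 0 0 t = 1 := by
  have h : tri 0 = {(0, 0)} := by decide
  unfold bas hc
  rw [h]
  simp [mono]

theorem haarU_one (hw : S_WEYL) : haarU (fun _ => 1) = 1 := by
  have h1 := hw 0 0 0
  rw [if_pos ⟨rfl, rfl⟩] at h1
  have h2 : bas 0 0 0 = fun t => (((1 : ℝ)) : ℂ) := by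
    funext t
    rw [bas_zero, Complex.ofReal_one]
  rw [h2, haar_ofReal] at h1
  exact_mod_cast h1

theorem haar_norm_le (hw : S_WEYL) {F : (Fin 3 → ℝ) → ℂ} {ε : ℝ} (h : ∀ t, ‖F t‖ ≤ ε) :
    ‖haar F‖ ≤ ε := by
  have h1 := haarU_one hw
  unfold haarU at h1
  simp only [one_mul] at h1
  have hi : IntegrableOn (fun t : Fin 3 → ℝ => ε * weylDensity t)
      (Set.Icc (0 : Fin 3 → ℝ) (fun _ => 2 * Real.pi)) :=
    ContinuousOn.integrableOn_compact isCompact_Icc ((continuous_const.mul cont_weyl).continuousOn)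
  have h2 : ‖∫ t in Set.Icc (0 : Fin 3 → ℝ) (fun _ => 2 * Real.pi), F t * (weylDensity t : ℂ)‖ ≤
      ∫ t in Set.Icc (0 : Fin 3 → ℝ) (fun _ => 2 * Real.pi), ε * weylDensity t := by
    refine norm_integral_le_of_norm_le hi (Filter.Eventually.of_forall fun t => ?_)
    rw [norm_mul, Complex.norm_real, Real.norm_of_nonneg (weyl_nonneg t)]
    exact mul_le_mul_of_nonneg_right (h t) (weyl_nonneg t)
  rw [integral_const_mul] at h2
  unfold haar
  have hp : (0 : ℝ) < 1 / (2 * Real.pi) ^ 3 := by positivity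
  rw [norm_mul, Complex.norm_real, Real.norm_of_nonneg hp.le]
  calc _ ≤ 1 / (2 * Real.pi) ^ 3 * (ε * ∫ t in Set.Icc (0 : Fin 3 → ℝ) (fun _ => 2 * Real.pi),
      weylDensity t) := mul_le_mul_of_nonneg_left h2 hp.le
    _ = ε * (1 / (2 * Real.pi) ^ 3 * ∫ t in Set.Icc (0 : Fin 3 → ℝ) (fun _ => 2 * Real.pi),
      weylDensity t) := by ring
    _ = ε := by rw [h1, mul_one]

/-- the average over the central twists -/
noncomputable def tw (m : ℕ) (F : (Fin 3 → ℝ) → ℂ) (t : Fin 3 → ℝ) : ℂ :=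
  if m = 0 then F t else ((1 / (3 * m) : ℝ) : ℂ) * ∑ k ∈ Finset.range (3 * m),
    F fun i => t i + (2 * Real.pi * k / (3 * m) - (t 0 + t 1 + t 2) / 3)

theorem tw_cont (m : ℕ) {F : (Fin 3 → ℝ) → ℂ} (hF : Continuous F) : Continuous (tw m F) := by
  unfold tw
  by_cases hm : m = 0
  · simp only [if_pos hm]
    exact hF
  · simp only [if_neg hm]
    refine continuous_const.mul (continuous_finsetSum _ fun k _ => hF.comp ?_)
    fun_prop

theorem tw_sum (m : ℕ) {κ : Type} (T : Finset κ) (f : κ → ℂ) (G : κ → (Fin 3 → ℝ) → ℂ) :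
    tw m (fun t => ∑ q ∈ T, f q * G q t) = fun t => ∑ q ∈ T, f q * tw m (G q) t := by
  funext t
  unfold tw
  by_cases hm : m = 0
  · simp only [if_pos hm]
  · simp only [if_neg hm]
    rw [Finset.sum_comm, Finset.mul_sum]
    refine Finset.sum_congr rfl fun q _ => ?_
    rw [← Finset.mul_sum]
    ring

theorem tw_sub (m : ℕ) (F G : (Fin 3 → ℝ) → ℂ) :
    tw m (fun t => F t - G t) = fun t => tw m F t - tw m G t := by
  funext t
  unfold tw
  by_cases hm : m = 0
  · simp only [if_pos hm]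
  · simp only [if_neg hm]
    rw [Finset.sum_sub_distrib]
    ring

theorem tw_norm_le (m : ℕ) {F : (Fin 3 → ℝ) → ℂ} {ε : ℝ} (h : ∀ t, ‖F t‖ ≤ ε) (t : Fin 3 → ℝ) :
    ‖tw m F t‖ ≤ ε := by
  unfold tw
  by_cases hm : m = 0
  · rw [if_pos hm]
    exact h t
  · rw [if_neg hm]
    have hm' : (0 : ℝ) < m := by
      have : 0 < m := Nat.pos_of_ne_zero hm
      exact_mod_cast this
    have hp : (0 : ℝ) ≤ 1 / (3 * m) := by positivity
    rw [norm_mul, Complex.norm_real, Real.norm_of_nonneg hp]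
    have h1 := (norm_sum_le (Finset.range (3 * m)) fun k =>
      F fun i => t i + (2 * Real.pi * k / (3 * m) - (t 0 + t 1 + t 2) / 3)).trans
        (Finset.sum_le_sum fun k _ => h _)
    rw [Finset.sum_const, Finset.card_range, nsmul_eq_mul] at h1
    calc _ ≤ 1 / (3 * (m : ℝ)) * (((3 * m : ℕ) : ℝ) * ε) := mul_le_mul_of_nonneg_left h1 hp
      _ = ε := by
        push_cast
        field_simp

theorem tw_ofReal (m : ℕ) (F : (Fin 3 → ℝ) → ℝ) : haar (tw m fun t => (F t : ℂ)) = (haarM m F : ℂ) := by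
  unfold haarM
  by_cases hm : m = 0
  · rw [if_pos hm, ← haar_ofReal]
    congr 1
    funext t
    unfold tw
    rw [if_pos hm]
  · rw [if_neg hm, ← haar_ofReal]
    congr 1
    funext t
    unfold tw
    rw [if_neg hm]
    push_cast
    rfl

theorem ex_shift (t : Fin 3 → ℝ) (z : ℝ) (i : Fin 3) :
    ex (fun i => t i + z) i = ex t i * Complex.exp (z * Complex.I) := by
  unfold ex
  rw [← Complex.exp_add]
  congr 1
  push_cast
  ring

theorem hc_smul (a : ℕ) (x : Fin 3 → ℂ) (w : ℂ) : hc a (fun i => x i * w) = w ^ a * hc a x := by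
  unfold hc
  rw [Finset.mul_sum]
  refine Finset.sum_congr rfl fun p hp => ?_
  have h1 : p.1 + p.2 ≤ a := (Finset.mem_filter.1 hp).2
  unfold mono
  rw [mul_pow, mul_pow, mul_pow]
  have h2 : w ^ a = w ^ (a - p.1 - p.2) * w ^ p.1 * w ^ p.2 := by
    rw [← pow_add, ← pow_add]
    congr 1
    omega
  rw [h2]
  ring

theorem bas_shift (a b : ℕ) (c : ℤ) (t : Fin 3 → ℝ) (z : ℝ) :
    bas a b c (fun i => t i + z) =
      bas a b c t * Complex.exp (((a - b + 3 * c : ℤ) * z : ℝ) * Complex.I) := by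
  unfold bas
  have h1 : ex (fun i => t i + z) = fun i => ex t i * Complex.exp (z * Complex.I) :=
    funext fun i => ex_shift t z i
  rw [h1, hc_smul, hc_smul, map_mul, map_pow, ← Complex.exp_conj, map_mul, Complex.conj_ofReal,
    Complex.conj_I, ← Complex.exp_nat_mul, ← Complex.exp_nat_mul]
  have h2 : Complex.exp (((c * (t 0 + z + (t 1 + z) + (t 2 + z)) : ℝ) : ℂ) * Complex.I) =
      Complex.exp (((c * (t 0 + t 1 + t 2) : ℝ) : ℂ) * Complex.I) *
        Complex.exp (3 * c * z * Complex.I) := by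
    rw [← Complex.exp_add]
    congr 1
    push_cast
    ring
  have h3 : Complex.exp ((((a - b + 3 * c : ℤ) * z : ℝ) : ℂ) * Complex.I) =
      Complex.exp ((a : ℂ) * (z * Complex.I)) * Complex.exp ((b : ℂ) * (z * -Complex.I)) *
        Complex.exp (3 * c * z * Complex.I) := by
    rw [← Complex.exp_add, ← Complex.exp_add]
    congr 1
    push_cast
    ring
  rw [h2, h3]
  ring

/-- orthogonality -/
theorem haar_tw_bas (hw : S_WEYL) (m a b : ℕ) (c : ℤ) :
    haar (tw m (bas a b c)) = if a = b ∧ (m : ℤ) ∣ c then 1 else 0 := by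
  by_cases hm : m = 0
  · have h1 : tw m (bas a b c) = bas a b c := by
      funext t
      unfold tw
      rw [if_pos hm]
    rw [h1, hw, hm]
    congr 1
    rw [Nat.cast_zero, zero_dvd_iff]
  have hm' : (0 : ℝ) < m := by
    have : 0 < m := Nat.pos_of_ne_zero hm
    exact_mod_cast this
  have hmC : (m : ℂ) ≠ 0 := by
    exact_mod_cast hm
  set n : ℤ := a - b + 3 * c with hn
  set ζ : ℂ := Complex.exp (2 * Real.pi * Complex.I * n / (3 * m)) with hζ
  have h1 : ∀ t, tw m (bas a b c) t = bas a b c t *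
      Complex.exp (((-(n : ℝ) * (t 0 + t 1 + t 2) / 3 : ℝ) : ℂ) * Complex.I) *
        (((1 / (3 * m) : ℝ) : ℂ) * ∑ k ∈ Finset.range (3 * m), ζ ^ k) := by
    intro t
    unfold tw
    rw [if_neg hm]
    rw [Finset.mul_sum, Finset.mul_sum, Finset.mul_sum]
    refine Finset.sum_congr rfl fun k _ => ?_
    rw [bas_shift, ← hn, hζ, ← Complex.exp_nat_mul]
    have h2 : Complex.exp ((((n : ℝ) * (2 * Real.pi * k / (3 * m) - (t 0 + t 1 + t 2) / 3) : ℝ) : ℂ) *
        Complex.I) = Complex.exp (((-(n : ℝ) * (t 0 + t 1 + t 2) / 3 : ℝ) : ℂ) * Complex.I) *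
          Complex.exp ((k : ℂ) * (2 * Real.pi * Complex.I * n / (3 * m))) := by
      rw [← Complex.exp_add]
      congr 1
      push_cast
      field_simp
      ring
    rw [h2]
    ring
  have hζm : ζ ^ (3 * m) = 1 := by
    rw [hζ, ← Complex.exp_nat_mul]
    have : ((3 * m : ℕ) : ℂ) * (2 * Real.pi * Complex.I * n / (3 * m)) =
        n * (2 * Real.pi * Complex.I) := by
      push_cast
      field_simp
    rw [this, Complex.exp_int_mul_two_pi_mul_I]
  by_cases hd : ((3 * m : ℕ) : ℤ) ∣ n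
  · obtain ⟨j, hj⟩ := hd
    have h2 : ζ = 1 := by
      rw [hζ]
      have : 2 * Real.pi * Complex.I * (n : ℂ) / (3 * m) = j * (2 * Real.pi * Complex.I) := by
        rw [hj]
        push_cast
        field_simp
      rw [this, Complex.exp_int_mul_two_pi_mul_I]
    have h3 : ((1 / (3 * m) : ℝ) : ℂ) * ∑ k ∈ Finset.range (3 * m), ζ ^ k = 1 := by
      rw [h2]
      simp only [one_pow, Finset.sum_const, Finset.card_range, nsmul_eq_mul, mul_one]
      push_cast
      field_simp
    have h4 : tw m (bas a b c) = bas a b (c - m * j) := by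
      funext t
      rw [h1, h3, mul_one]
      unfold bas
      rw [mul_assoc, ← Complex.exp_add]
      congr 2
      rw [hj]
      push_cast
      ring
    rw [h4, hw]
    congr 1
    rw [eq_iff_iff]
    push_cast at hj
    constructor
    · rintro ⟨h5, h6⟩
      exact ⟨h5, j, by linarith⟩
    · rintro ⟨h5, -⟩
      refine ⟨h5, ?_⟩
      rw [h5] at hn
      have : (3 : ℤ) * c = 3 * (m * j) := by linarith
      linarith
  · have h2 : ζ ≠ 1 := by
      intro h2
      rw [hζ, Complex.exp_eq_one_iff] at h2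
      obtain ⟨j, hj⟩ := h2
      apply hd
      refine ⟨j, ?_⟩
      have hpi : (2 * Real.pi * Complex.I : ℂ) ≠ 0 := Complex.two_pi_I_ne_zero
      have h3 : (n : ℂ) = (3 * m) * j := by
        have h4 : (2 * Real.pi * Complex.I) * (n : ℂ) = (2 * Real.pi * Complex.I) * ((3 * m) * j) := by
          have h5 : (3 * (m : ℂ)) ≠ 0 := mul_ne_zero (by norm_num) hmC
          field_simp at hj
          linear_combination hj * (2 * Real.pi * Complex.I)
        exact mul_left_cancel₀ hpi h4
      exact_mod_cast h3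
    have h3 : ∑ k ∈ Finset.range (3 * m), ζ ^ k = 0 := by
      rw [geom_sum_eq h2, hζm, sub_self, zero_div]
    have h4 : tw m (bas a b c) = fun t => ∑ q ∈ (∅ : Finset ℕ), (fun _ => (0 : ℂ)) q * bas 0 0 0 t := by
      funext t
      rw [h1, h3, mul_zero, mul_zero, Finset.sum_empty]
    rw [h4, haar_sum ∅ (fun _ => (0 : ℂ)) (G := fun _ => bas 0 0 0) (fun q hq => by simp at hq),
      Finset.sum_empty, if_neg]
    rintro ⟨h5, j, h6⟩
    apply hd
    refine ⟨j, ?_⟩
    rw [hn, h5, h6]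
    push_cast
    ring

end Pool.Agent.H63.G3
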