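import Pool.Agent.H63.G3.Mean
import Pool.Agent.H63.G3.Haar
import Pool.Agent.H980.G3.Weyl
set_option autoImplicit false
set_option linter.unusedSectionVars false

namespace Pool.Agent.H63.G3

open NumberField IsDedekindDomain Filter Topology Finset ComplexConjugate MeasureTheory
open Pool.Agent.TH553.ST Pool.Agent.TH553.RS Pool.Agent.W540.BE
open Pool.Agent.X289.Main Pool.Agent.X289.Al

variable {K : Type} [Field K] [NumberField K]
  {t : HeightOneSpectrum (𝓞 K) → Fin 3 → ℝ} {E : Type} {d1 d2 : E → ℕ} {m : ℕ}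

theorem cont_msym (n : Fin 3 → ℤ) : Continuous (msym n) := by
  unfold msym
  exact continuous_finsetSum _ fun σ _ => cont_mon _

/-- averages of linear combinations -/
theorem avg_comb {κ : Type} (T : Finset κ) (f : κ → ℂ) {G : κ → (Fin 3 → ℝ) → ℂ}
    (hc : ∀ q ∈ T, Continuous (G q))
    (hG : ∀ q ∈ T, Tendsto (mn fun v => G q (t v)) atTop (𝓝 (haar (tw m (G q))))) :
    Tendsto (mn fun v => ∑ q ∈ T, f q * G q (t v)) atTop
      (𝓝 (haar (tw m fun u => ∑ q ∈ T, f q * G q u))) := by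
  rw [tw_sum, haar_sum T f fun q hq => tw_cont m (hc q hq)]
  have h1 : (mn fun v => ∑ q ∈ T, f q * G q (t v)) =
      fun N => ∑ q ∈ T, f q * mn (fun v => G q (t v)) N := by
    funext N
    rw [mn_sum]
    exact Finset.sum_congr rfl fun q _ => mn_mul _ _ _
  rw [h1]
  exact tendsto_finsetSum _ fun q hq => (hG q hq).const_mul (f q)

theorem avg_msym (hs : S_SPAN) (hw : S_WEYL) (h : Form3 t d1 d2 m) {s : ℕ}
    (hreg : ∀ a ≤ s, Regular3 d1 d2 a) {n : Fin 3 → ℤ} (hn : ∀ i j, n i - n j ≤ s) :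
    Tendsto (mn fun v => msym n (t v)) atTop (𝓝 (haar (tw m (msym n)))) := by
  obtain ⟨T, f, h1, h2⟩ := hs s n hn
  have h3 : msym n = fun u => ∑ q ∈ T, f q * bas q.1 q.2.1 q.2.2 u := funext h2
  have h4 := avg_comb (t := t) (m := m) T f (G := fun q => bas q.1 q.2.1 q.2.2)
    (fun q _ => cont_bas _ _ _) fun q hq => by
      rw [haar_tw_bas hw]
      exact avg_bas h (hreg _ (h1 q hq).1) (hreg _ (h1 q hq).2.1) q.2.2
  rw [h3]
  exact h4

/-- a symmetric trigonometric polynomial -/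
theorem poly_sym {N : ℕ} {p : (Fin 3 → ℤ) → ℂ}
    (hp : ∀ (σ : Equiv.Perm (Fin 3)) n, p (n ∘ σ) = p n) (u : Fin 3 → ℝ) :
    ∑ n ∈ Fintype.piFinset (fun _ : Fin 3 => Icc (-(N : ℤ)) N), p n * mon n u =
      ∑ n ∈ Fintype.piFinset (fun _ : Fin 3 => Icc (-(N : ℤ)) N), (p n / 6) * msym n u := by
  have h1 : ∀ σ : Equiv.Perm (Fin 3),
      ∑ n ∈ Fintype.piFinset (fun _ : Fin 3 => Icc (-(N : ℤ)) N), p n * mon (n ∘ σ) u =
      ∑ n ∈ Fintype.piFinset (fun _ : Fin 3 => Icc (-(N : ℤ)) N), p n * mon n u := by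
    intro σ
    refine Finset.sum_nbij' (fun n => n ∘ σ) (fun n => n ∘ σ.symm) ?_ ?_ ?_ ?_ ?_
    · intro n hn
      rw [Fintype.mem_piFinset] at hn ⊢
      exact fun i => hn _
    · intro n hn
      rw [Fintype.mem_piFinset] at hn ⊢
      exact fun i => hn _
    · intro n _
      funext i
      simp
    · intro n _
      funext i
      simp
    · intro n _
      rw [hp]
  have h2 : ∑ n ∈ Fintype.piFinset (fun _ : Fin 3 => Icc (-(N : ℤ)) N), (p n / 6) * msym n u =
      1 / 6 * ∑ σ : Equiv.Perm (Fin 3),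
        ∑ n ∈ Fintype.piFinset (fun _ : Fin 3 => Icc (-(N : ℤ)) N), p n * mon (n ∘ σ) u := by
    rw [Finset.sum_comm, Finset.mul_sum]
    refine Finset.sum_congr rfl fun n _ => ?_
    unfold msym
    rw [← Finset.mul_sum]
    ring
  rw [h2, Finset.sum_congr rfl fun σ _ => h1 σ, Finset.sum_const, Finset.card_univ, Fintype.card_perm,
    Fintype.card_fin, nsmul_eq_mul]
  norm_num [Nat.factorial]
  ring

theorem cont_of_lip {F : (Fin 3 → ℝ) → ℝ} {B : ℝ} (hB : 0 ≤ B) (hL : Lip F B) : Continuous F := by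
  refine (LipschitzWith.of_dist_le_mul (K := ⟨3 * B, by positivity⟩) fun u w => ?_).continuous
  rw [Real.dist_eq]
  refine (hL.2 u w).trans ?_
  have h1 : ∑ i, |u i - w i| ≤ ∑ _i : Fin 3, dist u w := by
    refine Finset.sum_le_sum fun i _ => ?_
    rw [← Real.dist_eq]
    exact dist_le_pi_dist u w i
  rw [Finset.sum_const, Finset.card_univ, Fintype.card_fin, nsmul_eq_mul] at h1
  have h2 := mul_le_mul_of_nonneg_left h1 hB
  change _ ≤ 3 * B * dist u w
  push_cast at h2
  linarith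

/-- the coefficients of a trigonometric polynomial close to a Lipschitz function -/
theorem coef_le {N : ℕ} {p : (Fin 3 → ℤ) → ℂ} {F : (Fin 3 → ℝ) → ℝ} {B ε : ℝ} (hB : 0 ≤ B)
    (hL : Lip F B) (hε : ∀ u, ‖(F u : ℂ) -
      ∑ n ∈ Fintype.piFinset (fun _ : Fin 3 => Icc (-(N : ℤ)) N), p n * mon n u‖ ≤ ε)
    {n : Fin 3 → ℤ} (hn : n ∈ Fintype.piFinset (fun _ : Fin 3 => Icc (-(N : ℤ)) N)) (hn0 : n ≠ 0) :
    ‖p n‖ ≤ ε + 6 * Real.pi * B := by
  classical
  set P : (Fin 3 → ℝ) → ℂ := fun u =>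
    ∑ n ∈ Fintype.piFinset (fun _ : Fin 3 => Icc (-(N : ℤ)) N), p n * mon n u with hP
  have hcm : ∀ k : Fin 3 → ℤ, IntegrableOn (mon k)
      (Set.Icc (0 : Fin 3 → ℝ) (fun _ => 2 * Real.pi)) := fun k =>
    ContinuousOn.integrableOn_compact isCompact_Icc (cont_mon k).continuousOn
  have h1 : ∫ u in Set.Icc (0 : Fin 3 → ℝ) (fun _ => 2 * Real.pi),
      (P u - (F 0 : ℂ)) * mon (-n) u = (((2 * Real.pi) ^ 3 : ℝ) : ℂ) * p n := by
    have h2 : (fun u => (P u - (F 0 : ℂ)) * mon (-n) u) = fun u =>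
        (∑ k ∈ Fintype.piFinset (fun _ : Fin 3 => Icc (-(N : ℤ)) N), p k * mon (k + -n) u) -
          (F 0 : ℂ) * mon (-n) u := by
      funext u
      rw [sub_mul, hP]
      simp only
      rw [Finset.sum_mul]
      congr 1
      refine Finset.sum_congr rfl fun k _ => ?_
      rw [mul_assoc, Pool.Agent.H980.G3.mon_add]
    rw [h2, integral_sub (integrable_finsetSum _ fun k _ => (hcm _).const_mul _)
      ((hcm _).const_mul _), integral_finsetSum _ fun k _ => (hcm _).const_mul _, integral_const_mul,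
      Pool.Agent.H980.G3.int_mon, if_neg (neg_ne_zero.2 hn0), mul_zero, sub_zero]
    have h3 : ∀ k ∈ Fintype.piFinset (fun _ : Fin 3 => Icc (-(N : ℤ)) N),
        ∫ u in Set.Icc (0 : Fin 3 → ℝ) (fun _ => 2 * Real.pi), p k * mon (k + -n) u =
          if k = n then (((2 * Real.pi) ^ 3 : ℝ) : ℂ) * p n else 0 := by
      intro k _
      rw [integral_const_mul, Pool.Agent.H980.G3.int_mon]
      by_cases hk : k = n
      · rw [if_pos hk, if_pos (by rw [hk]; exact add_neg_cancel n), hk]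
        ring
      · rw [if_neg hk, if_neg (fun h => hk (add_neg_eq_zero.1 h)), mul_zero]
    rw [Finset.sum_congr rfl h3, Finset.sum_ite_eq' _ n, if_pos hn]
  have h2 : ‖∫ u in Set.Icc (0 : Fin 3 → ℝ) (fun _ => 2 * Real.pi),
      (P u - (F 0 : ℂ)) * mon (-n) u‖ ≤ (ε + 6 * Real.pi * B) *
        volume.real (Set.Icc (0 : Fin 3 → ℝ) (fun _ => 2 * Real.pi)) := by
    refine norm_setIntegral_le_of_norm_le_const isCompact_Icc.measure_lt_top fun u hu => ?_
    have h3 : ‖mon (-n) u‖ = 1 := Complex.norm_exp_ofReal_mul_I _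
    rw [norm_mul, h3, mul_one]
    have h4 : P u - (F 0 : ℂ) = -((F u : ℂ) - P u) + ((F u - F 0 : ℝ) : ℂ) := by
      push_cast
      ring
    rw [h4]
    refine (norm_add_le _ _).trans (add_le_add ?_ ?_)
    · rw [norm_neg]
      exact hε u
    · rw [Complex.norm_real, Real.norm_eq_abs]
      refine (hL.2 u 0).trans ?_
      have h5 : ∑ i, |u i - (0 : Fin 3 → ℝ) i| ≤ ∑ _i : Fin 3, 2 * Real.pi := by
        refine Finset.sum_le_sum fun i _ => ?_
        rw [Pi.zero_apply, sub_zero, abs_of_nonneg (hu.1 i)]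
        exact hu.2 i
      rw [Finset.sum_const, Finset.card_univ, Fintype.card_fin, nsmul_eq_mul] at h5
      have h6 := mul_le_mul_of_nonneg_left h5 hB
      push_cast at h6
      linarith
  have h3 : volume.real (Set.Icc (0 : Fin 3 → ℝ) (fun _ => 2 * Real.pi)) = (2 * Real.pi) ^ 3 := by
    rw [measureReal_def, Real.volume_Icc_pi_toReal (fun i => by simp [Real.pi_pos.le])]
    simp
  rw [h1, h3, norm_mul, Complex.norm_real, Real.norm_of_nonneg (by positivity)] at h2
  have h4 : (0 : ℝ) < (2 * Real.pi) ^ 3 := by positivity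
  have h5 : (2 * Real.pi) ^ 3 * ‖p n‖ ≤ (2 * Real.pi) ^ 3 * (ε + 6 * Real.pi * B) := by linarith
  exact le_of_mul_le_mul_left h5 h4

theorem msym_zero (u : Fin 3 → ℝ) : msym 0 u = 6 := by
  unfold msym mon
  simp [Fintype.card_perm, Nat.factorial]

theorem haar_six (hw : S_WEYL) : haar (tw m (msym 0)) = 6 := by
  have h1 : msym 0 = fun u => ∑ q ∈ ({0} : Finset ℕ), (fun _ => (6 : ℂ)) q * bas 0 0 0 u := by
    funext u
    rw [msym_zero, Finset.sum_singleton, bas_zero, mul_one]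
  rw [h1, tw_sum, haar_sum _ _ (G := fun _ => tw m (bas 0 0 0)) fun q _ => tw_cont m (cont_bas _ _ _),
    Finset.sum_singleton, haar_tw_bas hw, if_pos ⟨rfl, dvd_zero _⟩, mul_one]

/-- **The main estimate.** -/
theorem core (hs : S_SPAN) (hw : S_WEYL) (hj : S_JACK) (h : Form3 t d1 d2 m) {N : ℕ}
    (hreg : ∀ a ≤ 2 * N, Regular3 d1 d2 a) {η : ℝ} (hη : 0 < η) :
    ∀ᶠ M in atTop, ∀ (F : (Fin 3 → ℝ) → ℝ) (B : ℝ), 0 ≤ B → Lip F B → Symm F →
      |mn (fun v => F (t v)) M - haarM m F| ≤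
        B * (2 * (3 * (Real.pi ^ 2 / (2 * (N + 2)))) + η) := by
  classical
  set ε₁ : ℝ := 3 * (Real.pi ^ 2 / (2 * (N + 2))) with hε₁
  have hε₁0 : 0 ≤ ε₁ := by positivity
  set C : ℝ := ε₁ + 6 * Real.pi with hC
  have hC0 : 0 < C := by positivity
  set bx : Finset (Fin 3 → ℤ) := Fintype.piFinset (fun _ : Fin 3 => Icc (-(N : ℤ)) N) with hbx
  set η' : ℝ := η * 6 / (C * (bx.card + 1)) with hη'
  have hη'0 : 0 < η' := by positivity
  have h1 : ∀ᶠ M in atTop, ∀ n ∈ bx,
      ‖mn (fun v => msym n (t v)) M - haar (tw m (msym n))‖ ≤ η' := by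
    rw [Filter.eventually_all_finset]
    intro n hn
    have h2 : Tendsto (mn fun v => msym n (t v)) atTop (𝓝 (haar (tw m (msym n)))) := by
      refine avg_msym hs hw h hreg fun i j => ?_
      rw [hbx, Fintype.mem_piFinset] at hn
      have h2 := Finset.mem_Icc.1 (hn i)
      have h3 := Finset.mem_Icc.1 (hn j)
      push_cast
      linarith [h2.2, h3.1]
    rw [Metric.tendsto_nhds] at h2
    filter_upwards [h2 η' hη'0] with M hM
    rw [dist_eq_norm] at hM
    exact hM.le
  filter_upwards [h1, card_ev (K := K)] with M hM hcard F B hB hL hS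
  obtain ⟨p, hp1, hp2⟩ := hj N F B hB hL hS
  have hε : 3 * B * (Real.pi ^ 2 / (2 * ((N : ℝ) + 2))) = B * ε₁ := by
    rw [hε₁]
    ring
  rw [hε] at hp2
  have hε0 : 0 ≤ B * ε₁ := by positivity
  set P : (Fin 3 → ℝ) → ℂ := fun u => ∑ n ∈ bx, p n * mon n u with hP
  have hP2 : P = fun u => ∑ n ∈ bx, (p n / 6) * msym n u := funext fun u => poly_sym hp1 u
  have hPc : Continuous P := by
    rw [hP2]
    exact continuous_finsetSum _ fun n _ => continuous_const.mul (cont_msym n)
  have hFc : Continuous fun u => (F u : ℂ) := Complex.continuous_ofReal.comp (cont_of_lip hB hL)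
  have h2 : ‖mn (fun v => (F (t v) : ℂ)) M - mn (fun v => P (t v)) M‖ ≤ B * ε₁ :=
    mn_sub_le (fun v => hp2 (t v)) hε0 M
  have h3 : ‖haar (tw m P) - haar (tw m fun u => (F u : ℂ))‖ ≤ B * ε₁ := by
    rw [← norm_neg, neg_sub, ← haar_sub (tw_cont m hFc) (tw_cont m hPc)]
    have h4 := tw_sub m (fun u => (F u : ℂ)) P
    have h5 : (fun u => tw m (fun u => (F u : ℂ)) u - tw m P u) = tw m fun u => (F u : ℂ) - P u :=
      h4.symm
    rw [h5]
    exact haar_norm_le hw (tw_norm_le m hp2)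
  have h4 : ‖mn (fun v => P (t v)) M - haar (tw m P)‖ ≤ B * η := by
    have e1 : mn (fun v => P (t v)) M = ∑ n ∈ bx, (p n / 6) * mn (fun v => msym n (t v)) M := by
      rw [hP2]
      simp only
      rw [mn_sum]
      exact Finset.sum_congr rfl fun n _ => mn_mul _ _ _
    have e2 : haar (tw m P) = ∑ n ∈ bx, (p n / 6) * haar (tw m (msym n)) := by
      rw [hP2, tw_sum, haar_sum _ _ fun n _ => tw_cont m (cont_msym n)]
    rw [e1, e2, ← Finset.sum_sub_distrib]
    refine (norm_sum_le _ _).trans ?_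
    have e3 : ∀ n ∈ bx, ‖p n / 6 * mn (fun v => msym n (t v)) M - p n / 6 * haar (tw m (msym n))‖ ≤
        B * C / 6 * η' := by
      intro n hn
      rw [← mul_sub, norm_mul]
      by_cases hn0 : n = 0
      · have e4 : mn (fun v => msym n (t v)) M - haar (tw m (msym n)) = 0 := by
          rw [hn0, haar_six hw]
          simp only [msym_zero]
          unfold mn
          rw [Finset.sum_const, nsmul_eq_mul, Complex.real_smul]
          push_cast
          have : ((upto K M).card : ℂ) ≠ 0 := by exact_mod_cast hcard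
          field_simp
          ring
        rw [e4, norm_zero, mul_zero]
        positivity
      · refine mul_le_mul ?_ (hM n hn) (norm_nonneg _) (by positivity)
        have e5 := coef_le hB hL hp2 hn hn0
        rw [norm_div]
        have e6 : ‖(6 : ℂ)‖ = 6 := by simp
        rw [e6]
        refine div_le_div_of_nonneg_right ?_ (by norm_num)
        rw [hC]
        linarith
    refine (Finset.sum_le_sum e3).trans ?_
    rw [Finset.sum_const, nsmul_eq_mul, hη']
    have e7 : (bx.card : ℝ) * (B * C / 6 * (η * 6 / (C * (bx.card + 1)))) =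
        B * η * (bx.card / (bx.card + 1)) := by
      field_simp
    rw [e7]
    have e8 : (bx.card : ℝ) / (bx.card + 1) ≤ 1 := by
      rw [div_le_one (by positivity)]
      linarith
    have := mul_le_mul_of_nonneg_left e8 (by positivity : 0 ≤ B * η)
    linarith
  have h5 : ((mn (fun v => F (t v)) M - haarM m F : ℝ) : ℂ) =
      (mn (fun v => (F (t v) : ℂ)) M - mn (fun v => P (t v)) M) +
        (mn (fun v => P (t v)) M - haar (tw m P)) + (haar (tw m P) - haar (tw m fun u => (F u : ℂ))) := by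
    rw [tw_ofReal, mn_ofReal]
    push_cast
    ring
  rw [← Real.norm_eq_abs, ← Complex.norm_real, h5]
  have h6 := norm_add_le ((mn (fun v => (F (t v) : ℂ)) M - mn (fun v => P (t v)) M) +
    (mn (fun v => P (t v)) M - haar (tw m P))) (haar (tw m P) - haar (tw m fun u => (F u : ℂ)))
  have h7 := norm_add_le (mn (fun v => (F (t v) : ℂ)) M - mn (fun v => P (t v)) M)
    (mn (fun v => P (t v)) M - haar (tw m P))
  have h8 : B * (2 * ε₁ + η) = B * ε₁ + B * η + B * ε₁ := by ring
  rw [h8]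
  linarith

theorem average_eq (f : HeightOneSpectrum (𝓞 K) → ℝ) (N : ℕ) : average f N = mn f N := by
  classical
  have h2 : Nat.card {v : HeightOneSpectrum (𝓞 K) // Ideal.absNorm v.asIdeal ≤ N} =
      (upto K N).card := by
    have e : {v : HeightOneSpectrum (𝓞 K) // Ideal.absNorm v.asIdeal ≤ N} ≃ (upto K N) :=
      (Equiv.subtypeEquivRight fun v => (mem_upto)).symm
    rw [Nat.card_congr e, Nat.card_eq_fintype_card, Fintype.card_coe]
  have h3 : ∑ᶠ v ∈ {v : HeightOneSpectrum (𝓞 K) | Ideal.absNorm v.asIdeal ≤ N}, f v =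
      ∑ v ∈ upto K N, f v := by
    have h4 : {v : HeightOneSpectrum (𝓞 K) | Ideal.absNorm v.asIdeal ≤ N} = ↑(upto K N) := by
      ext v
      rw [Finset.mem_coe, mem_upto]
      rfl
    rw [h4, finsum_mem_coe_finset]
  unfold average mn
  rw [h2, h3, smul_eq_mul, div_eq_inv_mul]

end Pool.Agent.H63.G3
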