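import Pool.Graph.R_pool_sql_team_seeded_64922ed1.X289.MultiF
import Pool.Agent.H63.G3.Stm

/-!
# Definitions: the Rankin-Selberg L-functions of symmetric powers of GL(3), the integral over `{g ∈ U(3) : det g ^ m = 1}`
-/

set_option autoImplicit false

namespace Pool.Agent.H63.G3

open NumberField IsDedekindDomain Filter Topology ComplexConjugate

variable {K : Type} [Field K] [NumberField K]

/-- The Rankin-Selberg Euler product of `Sym^a` and the dual of `Sym^b`, twisted by `det^c`; the Satake
parameters at `v` are `exp(i t_j(v))`, `j = 0, 1, 2`.  The local factor is the product of the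
`(1 - x^{k} conj(x^{l}) exp(i c (t_0 + t_1 + t_2)) q_v^{-s})⁻¹` over the exponents `k`, `l` of the
monomials in three variables of degree `a` and `b`. -/
noncomputable def LFun3 (t : HeightOneSpectrum (𝓞 K) → Fin 3 → ℝ) (a b : ℕ) (c : ℤ) (s : ℂ) : ℂ :=
  ∏' v : HeightOneSpectrum (𝓞 K), (∏ p ∈ tri a ×ˢ tri b,
    (1 - mono a (ex (t v)) p.1 * conj (mono b (ex (t v)) p.2) *
      Complex.exp ((c * (t v 0 + t v 1 + t v 2) : ℝ) * Complex.I) *
      (Ideal.absNorm v.asIdeal : ℂ) ^ (-s)))⁻¹

/-- `Λ` is a meromorphic continuation of `LFun3 t a b c` to a neighbourhood of `1 + iτ`. -/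
def IsContinuation (t : HeightOneSpectrum (𝓞 K) → Fin 3 → ℝ) (a b : ℕ) (c : ℤ) (τ : ℝ) (Λ : ℂ → ℂ) :
    Prop :=
  MeromorphicAt Λ (1 + τ * Complex.I) ∧
    ∀ᶠ s in 𝓝 ((1 : ℂ) + τ * Complex.I), (1 : ℝ) < s.re → Λ s = LFun3 t a b c s

/-- What is used of the regular polarizable cuspidal automorphic representation `Π` of `GL(3)` over the CM
field `K` (not a symmetric square, not induced): `exp(i t_j(v))`, `j = 0, 1, 2`, are the Satake
parameters of `Π` at `v` (at the finitely many bad primes any numbers with the property `det`), `e` runs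
through the embeddings of `K`, the three Hodge numbers at `e` are `h < h + d₁(e) < h + d₁(e) + d₂(e)`,
and `m` is the order of the unitary central character (`m = 0`: infinite order).  If the Hodge numbers
of `Sym^a Π` and those of `Sym^b Π` are pairwise different at every `e`, then the Rankin-Selberg
`L`-function of `Sym^a Π` and the dual of `Sym^b Π`, twisted by any power of the central character,
has no zeros on `Re s = 1` and no poles there, except for a simple pole at `s = 1` if `a = b` and the
twist is trivial. -/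
structure Form3 {E : Type} (t : HeightOneSpectrum (𝓞 K) → Fin 3 → ℝ) (d1 d2 : E → ℕ) (m : ℕ) :
    Prop where
  pos : ∀ e, 0 < d1 e ∧ 0 < d2 e
  det : ∀ v, ∃ k : ℤ, m * (t v 0 + t v 1 + t v 2) = 2 * Real.pi * k
  known : ∀ a b : ℕ, Regular3 d1 d2 a → Regular3 d1 d2 b → ∀ (c : ℤ) (τ : ℝ), ∃ Λ : ℂ → ℂ,
    IsContinuation t a b c τ Λ ∧ meromorphicOrderAt Λ (1 + τ * Complex.I) =
      if a = b ∧ (m : ℤ) ∣ c ∧ τ = 0 then -1 else 0

/-- The average over the primes `v` of norm at most `N`. -/
noncomputable def average (f : HeightOneSpectrum (𝓞 K) → ℝ) (N : ℕ) : ℝ :=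
  (∑ᶠ v ∈ {v : HeightOneSpectrum (𝓞 K) | Ideal.absNorm v.asIdeal ≤ N}, f v) /
    (Nat.card {v : HeightOneSpectrum (𝓞 K) // Ideal.absNorm v.asIdeal ≤ N} : ℝ)

/-- The proportion of the primes in `T` among the primes of norm at most `N`. -/
noncomputable def proportion (T : Set (HeightOneSpectrum (𝓞 K))) (N : ℕ) : ℝ :=
  average (T.indicator fun _ => 1) N

/-- The integral of the class function with the values `F t` over `U(3)` (Weyl integration formula). -/
noncomputable def haarU (F : (Fin 3 → ℝ) → ℝ) : ℝ :=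
  1 / (2 * Real.pi) ^ 3 * ∫ t in Set.Icc (0 : Fin 3 → ℝ) (fun _ => 2 * Real.pi), F t * weylDensity t

/-- The integral of the class function with the values `F t` over the group
`{g ∈ U(3) : det g ^ m = 1}` (over `U(3)` if `m = 0`): if `g` is a random element of `U(3)` and `z` is
random among the `3m` numbers with `det (z g) ^ m = 1`, then `z g` is a random element of this group. -/
noncomputable def haarM (m : ℕ) (F : (Fin 3 → ℝ) → ℝ) : ℝ :=
  if m = 0 then haarU F else haarU fun t => 1 / (3 * m) * ∑ k ∈ Finset.range (3 * m),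
    F fun i => t i + (2 * Real.pi * k / (3 * m) - (t 0 + t 1 + t 2) / 3)

/-- A set of angles which is `2π`-periodic in every variable and symmetric: the inverse image of a set of
conjugacy classes of `U(3)`. -/
def Invariant (S : Set (Fin 3 → ℝ)) : Prop :=
  (∀ u i, Function.update u i (u i + 2 * Real.pi) ∈ S ↔ u ∈ S) ∧
    ∀ (σ : Equiv.Perm (Fin 3)) u, u ∘ σ ∈ S ↔ u ∈ S

/-- The trace, the normalised Fourier coefficient of `Π` at `v` if `t = t(v)`. -/
noncomputable def tr (t : Fin 3 → ℝ) : ℂ := ∑ i, ex t i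

end Pool.Agent.H63.G3
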