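import Pool.Agent.H63.G3.Core
import Pool.Agent.H550.G3.Span
import Pool.Agent.H980.G3.Weyl
import Pool.Agent.H546.G3.Kern
import Pool.Agent.H696.G3.Jack
import Pool.Agent.H665.G3.Reg3
set_option autoImplicit false
set_option linter.unusedSectionVars false

namespace Pool.Agent.H63.G3

open NumberField IsDedekindDomain Filter Topology Finset ComplexConjugate MeasureTheory
open Pool.Agent.TH553.ST Pool.Agent.TH553.RS Pool.Agent.W540.BE
open Pool.Agent.X289.Main Pool.Agent.X289.Al

variable {K : Type} [Field K] [NumberField K]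
  {t : HeightOneSpectrum (𝓞 K) → Fin 3 → ℝ} {E : Type} {d1 d2 : E → ℕ} {m : ℕ}

theorem weyl : S_WEYL := Pool.Agent.H980.G3.t_weyl

theorem reg_of {D : ℕ} (hpos : ∀ e, 0 < d1 e ∧ 0 < d2 e)
    (hD : ∀ e, D * Nat.gcd (d1 e) (d2 e) ≤ d1 e + d2 e) {a : ℕ} (ha : a < D) : Regular3 d1 d2 a := by
  refine Pool.Agent.H665.G3.t_reg3 E d1 d2 a hpos fun e => ?_
  have hg : 0 < Nat.gcd (d1 e) (d2 e) := Nat.gcd_pos_of_pos_left _ (hpos e).1
  exact lt_of_lt_of_le (Nat.mul_lt_mul_of_pos_right ha hg) (hD e)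

/-- the law for Lipschitz functions -/
theorem law (h : Form3 t d1 d2 m) {D : ℕ} (hD1 : 1 ≤ D) (hreg : ∀ a < D, Regular3 d1 d2 a)
    {η : ℝ} (hη : 0 < η) :
    ∀ᶠ N in atTop, ∀ (F : (Fin 3 → ℝ) → ℝ) (B : ℝ), 0 ≤ B → Lip F B → Symm F →
      |average (fun v => F (t v)) N - haarM m F| ≤ B * (6 * Real.pi ^ 2 / (D + 2) + η) := by
  have h1 := core Pool.Agent.H550.G3.t_span weyl
    (Pool.Agent.H696.G3.t_jack Pool.Agent.H546.G3.t_kern) h (N := (D - 1) / 2)
    (fun a ha => hreg a (by omega)) hη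
  filter_upwards [h1] with M hM F B hB hL hS
  rw [average_eq]
  refine (hM F B hB hL hS).trans (mul_le_mul_of_nonneg_left ?_ hB)
  have h2 : ((D : ℝ) + 2) / 2 ≤ (((D - 1) / 2 : ℕ) : ℝ) + 2 := by
    have h3 : D + 2 ≤ 2 * ((D - 1) / 2 + 2) := by omega
    have h4 : ((D + 2 : ℕ) : ℝ) ≤ ((2 * ((D - 1) / 2 + 2) : ℕ) : ℝ) := by exact_mod_cast h3
    push_cast at h4 ⊢
    linarith
  have h3 : 2 * (3 * (Real.pi ^ 2 / (2 * ((((D - 1) / 2 : ℕ) : ℝ) + 2)))) ≤
      6 * Real.pi ^ 2 / (D + 2) := by
    have h4 : 2 * (3 * (Real.pi ^ 2 / (2 * ((((D - 1) / 2 : ℕ) : ℝ) + 2)))) =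
        3 * Real.pi ^ 2 / ((((D - 1) / 2 : ℕ) : ℝ) + 2) := by
      field_simp
    have h5 : 6 * Real.pi ^ 2 / ((D : ℝ) + 2) = 3 * Real.pi ^ 2 / (((D : ℝ) + 2) / 2) := by
      field_simp
      ring
    rw [h4, h5]
    exact div_le_div_of_nonneg_left (by positivity) (by positivity) h2
  linarith

theorem mean_mono {f g : HeightOneSpectrum (𝓞 K) → ℝ} (h : ∀ v, f v ≤ g v) (N : ℕ) :
    average f N ≤ average g N := by
  rw [average_eq, average_eq]
  unfold mn
  rw [smul_eq_mul, smul_eq_mul]
  exact mul_le_mul_of_nonneg_left (Finset.sum_le_sum fun v _ => h v) (by positivity)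

/-! ### functions of the trace -/

theorem ex_lip (u w : Fin 3 → ℝ) (i : Fin 3) : ‖ex u i - ex w i‖ ≤ |u i - w i| := by
  have h1 : ex u i - ex w i = ex w i * (Complex.exp (Complex.I * ((u i - w i : ℝ) : ℂ)) - 1) := by
    unfold ex
    rw [mul_sub, mul_one, ← Complex.exp_add]
    congr 2
    push_cast
    ring
  have h2 : ‖ex w i‖ = 1 := Complex.norm_exp_ofReal_mul_I _
  rw [h1, norm_mul, h2, one_mul]
  exact Real.norm_exp_I_mul_ofReal_sub_one_le

theorem tr_lip (u w : Fin 3 → ℝ) : ‖tr u - tr w‖ ≤ ∑ i, |u i - w i| := by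
  unfold tr
  rw [← Finset.sum_sub_distrib]
  exact (norm_sum_le _ _).trans (Finset.sum_le_sum fun i _ => ex_lip u w i)

theorem tr_per (u : Fin 3 → ℝ) (i : Fin 3) : tr (Function.update u i (u i + 2 * Real.pi)) = tr u := by
  unfold tr
  refine Finset.sum_congr rfl fun j _ => ?_
  unfold ex
  by_cases hj : j = i
  · rw [hj, Function.update_self]
    push_cast
    rw [add_mul, Complex.exp_add, Complex.exp_two_pi_mul_I, mul_one]
  · rw [Function.update_of_ne hj]

theorem tr_symm (σ : Equiv.Perm (Fin 3)) (u : Fin 3 → ℝ) : tr (u ∘ σ) = tr u := by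
  unfold tr
  exact Equiv.sum_comp σ fun i => ex u i

theorem pi_sq_lt : Real.pi ^ 2 < 9.9 := by
  have := Real.pi_lt_d4
  nlinarith [Real.pi_pos]

theorem law_tr (h : Form3 t d1 d2 m) {D : ℕ} (hD1 : 1 ≤ D) (hreg : ∀ a < D, Regular3 d1 d2 a) :
    ∀ᶠ N in atTop, ∀ (g : ℂ → ℝ) (B : ℝ), 0 ≤ B → (∀ z w, |g z - g w| ≤ B * ‖z - w‖) →
      |average (fun v => g (tr (t v))) N - haarM m fun u => g (tr u)| ≤ 60 * B / (D + 2) := by
  have hpi := pi_sq_lt
  have hη : 0 < 60 / ((D : ℝ) + 2) - 6 * Real.pi ^ 2 / (D + 2) := by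
    rw [← sub_div]
    apply div_pos _ (by positivity)
    linarith
  filter_upwards [law h hD1 hreg hη] with N hN g B hB hg
  have hL : Lip (fun u => g (tr u)) B := by
    refine ⟨fun u i => ?_, fun u w => ?_⟩
    · simp only [tr_per]
    · exact (hg _ _).trans (mul_le_mul_of_nonneg_left (tr_lip u w) hB)
  have hS : Symm fun u => g (tr u) := fun σ u => by simp only [tr_symm]
  refine (hN _ B hB hL hS).trans_eq ?_
  ring

/-! ### sets -/

theorem intOnR {F : (Fin 3 → ℝ) → ℝ} (hF : Measurable F) {C : ℝ} (hC : ∀ u, |F u| ≤ C) :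
    IntegrableOn (fun t => F t * weylDensity t) (Set.Icc (0 : Fin 3 → ℝ) (fun _ => 2 * Real.pi)) := by
  have h1 : IntegrableOn weylDensity (Set.Icc (0 : Fin 3 → ℝ) (fun _ => 2 * Real.pi)) :=
    ContinuousOn.integrableOn_compact isCompact_Icc cont_weyl.continuousOn
  exact h1.bdd_mul (c := C) hF.aestronglyMeasurable
    (Filter.Eventually.of_forall fun u => by rw [Real.norm_eq_abs]; exact hC u)

theorem haarU_mono {F G : (Fin 3 → ℝ) → ℝ} (hF : Measurable F) (hG : Measurable G) {C C' : ℝ}
    (hC : ∀ u, |F u| ≤ C) (hC' : ∀ u, |G u| ≤ C') (h : ∀ u, F u ≤ G u) : haarU F ≤ haarU G := by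
  unfold haarU
  refine mul_le_mul_of_nonneg_left ?_ (by positivity)
  exact integral_mono (intOnR hF hC) (intOnR hG hC') fun u =>
    mul_le_mul_of_nonneg_right (h u) (weyl_nonneg u)

theorem haarM_mono (m : ℕ) {F G : (Fin 3 → ℝ) → ℝ} (hF : Measurable F) (hG : Measurable G) {C C' : ℝ}
    (hC : ∀ u, |F u| ≤ C) (hC' : ∀ u, |G u| ≤ C') (h : ∀ u, F u ≤ G u) : haarM m F ≤ haarM m G := by
  unfold haarM
  by_cases hm : m = 0
  · rw [if_pos hm, if_pos hm]
    exact haarU_mono hF hG hC hC' h
  · rw [if_neg hm, if_neg hm]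
    have hm' : (0 : ℝ) < m := by
      have : 0 < m := Nat.pos_of_ne_zero hm
      exact_mod_cast this
    have hme : ∀ {H : (Fin 3 → ℝ) → ℝ}, Measurable H → Measurable fun t : Fin 3 → ℝ =>
        1 / (3 * (m : ℝ)) * ∑ k ∈ Finset.range (3 * m),
          H fun i => t i + (2 * Real.pi * k / (3 * m) - (t 0 + t 1 + t 2) / 3) := by
      intro H hH
      refine measurable_const.mul (Finset.measurable_sum _ fun k _ => hH.comp ?_)
      have : Continuous fun t : Fin 3 → ℝ => fun i =>
          t i + (2 * Real.pi * k / (3 * m) - (t 0 + t 1 + t 2) / 3) := by fun_prop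
      exact this.measurable
    have hbd : ∀ {H : (Fin 3 → ℝ) → ℝ} {c : ℝ}, (∀ u, |H u| ≤ c) → ∀ t : Fin 3 → ℝ,
        |1 / (3 * (m : ℝ)) * ∑ k ∈ Finset.range (3 * m),
          H fun i => t i + (2 * Real.pi * k / (3 * m) - (t 0 + t 1 + t 2) / 3)| ≤ c := by
      intro H c hc t
      have hp : (0 : ℝ) ≤ 1 / (3 * m) := by positivity
      rw [abs_mul, abs_of_nonneg hp]
      have h1 := (Finset.abs_sum_le_sum_abs (fun k : ℕ =>
        H fun i => t i + (2 * Real.pi * k / (3 * m) - (t 0 + t 1 + t 2) / 3))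
          (Finset.range (3 * m))).trans (Finset.sum_le_sum fun k _ => hc _)
      rw [Finset.sum_const, Finset.card_range, nsmul_eq_mul] at h1
      calc _ ≤ 1 / (3 * (m : ℝ)) * (((3 * m : ℕ) : ℝ) * c) := mul_le_mul_of_nonneg_left h1 hp
        _ = c := by
          push_cast
          field_simp
    refine haarU_mono (hme hF) (hme hG) (hbd hC) (hbd hC') fun u => ?_
    exact mul_le_mul_of_nonneg_left (Finset.sum_le_sum fun k _ => h _) (by positivity)

theorem infDist_inv {S : Set (Fin 3 → ℝ)} {Φ : (Fin 3 → ℝ) → Fin 3 → ℝ} (hΦ : Isometry Φ)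
    (hsur : Function.Surjective Φ) (hS : ∀ u, Φ u ∈ S ↔ u ∈ S) (u : Fin 3 → ℝ) :
    Metric.infDist (Φ u) S = Metric.infDist u S := by
  have h1 : Φ '' S = S := by
    ext w
    constructor
    · rintro ⟨x, hx, rfl⟩
      exact (hS x).2 hx
    · intro hw
      obtain ⟨x, rfl⟩ := hsur w
      exact ⟨x, (hS x).1 hw, rfl⟩
  conv_lhs => rw [← h1]
  exact Metric.infDist_image hΦ

theorem law_set (h : Form3 t d1 d2 m) {D : ℕ} (hD1 : 1 ≤ D) (hreg : ∀ a < D, Regular3 d1 d2 a) :
    ∀ᶠ N in atTop, ∀ S : Set (Fin 3 → ℝ), MeasurableSet S → Invariant S →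
      haarM m (S.indicator fun _ => 1) - 8 / √(D + 2) ≤
        proportion {v | Metric.infDist (t v) S < 8 / √(D + 2)} N ∧
      proportion {v | t v ∈ S} N ≤
        haarM m ({u | Metric.infDist u S < 8 / √(D + 2)}.indicator fun _ => 1) + 8 / √(D + 2) := by
  have hpi := pi_sq_lt
  have hD0 : (0 : ℝ) < (D : ℝ) + 2 := by positivity
  have hsq : √((D : ℝ) + 2) * √((D : ℝ) + 2) = D + 2 := Real.mul_self_sqrt hD0.le
  have hsq0 : 0 < √((D : ℝ) + 2) := Real.sqrt_pos.2 hD0
  set δ : ℝ := 8 / √((D : ℝ) + 2) with hδe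
  have hδ : 0 < δ := by positivity
  have hη : 0 < 64 / ((D : ℝ) + 2) - 6 * Real.pi ^ 2 / (D + 2) := by
    rw [← sub_div]
    apply div_pos _ hD0
    linarith
  filter_upwards [law h hD1 hreg hη] with N hN S hSm hI
  set F : (Fin 3 → ℝ) → ℝ := fun u => max 0 (1 - Metric.infDist u S / δ) with hF
  have hF0 : ∀ u, 0 ≤ F u := fun u => le_max_left _ _
  have hF1 : ∀ u, F u ≤ 1 := fun u => by
    refine max_le zero_le_one ?_
    have : 0 ≤ Metric.infDist u S / δ := div_nonneg Metric.infDist_nonneg hδ.le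
    linarith
  have hFS : ∀ u ∈ S, F u = 1 := fun u hu => by
    rw [hF]
    simp only
    rw [Metric.infDist_zero_of_mem hu, zero_div, sub_zero]
    exact max_eq_right zero_le_one
  have hFn : ∀ u, ¬ Metric.infDist u S < δ → F u = 0 := fun u hu => by
    refine max_eq_left ?_
    have : 1 ≤ Metric.infDist u S / δ := by
      rw [le_div_iff₀ hδ, one_mul]
      exact not_lt.1 hu
    linarith
  have hL : Lip F (1 / δ) := by
    refine ⟨fun u i => ?_, fun u w => ?_⟩
    · have h1 : Metric.infDist (Function.update u i (u i + 2 * Real.pi)) S = Metric.infDist u S := by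
        refine infDist_inv (Φ := fun u => Function.update u i (u i + 2 * Real.pi)) ?_ ?_
          (fun u => hI.1 u i) u
        · refine Isometry.of_dist_eq fun x y => ?_
          have h2 : ∀ x : Fin 3 → ℝ, Function.update x i (x i + 2 * Real.pi) =
              x + Pi.single i (2 * Real.pi) := by
            intro x
            funext j
            by_cases hj : j = i
            · rw [hj, Function.update_self, Pi.add_apply, Pi.single_eq_same]
            · rw [Function.update_of_ne hj, Pi.add_apply, Pi.single_eq_of_ne hj, add_zero]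
          simp only [h2]
          exact dist_add_right _ _ _
        · intro w
          refine ⟨Function.update w i (w i - 2 * Real.pi), ?_⟩
          simp
      simp only [hF, h1]
    · have h1 : |Metric.infDist u S - Metric.infDist w S| ≤ dist u w := by
        rw [abs_sub_le_iff]
        constructor
        · have := Metric.infDist_le_infDist_add_dist (s := S) (x := u) (y := w)
          linarith
        · have := Metric.infDist_le_infDist_add_dist (s := S) (x := w) (y := u)
          rw [dist_comm w u] at this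
          linarith
      have h2 : dist u w ≤ ∑ i, |u i - w i| := by
        rw [dist_pi_le_iff (Finset.sum_nonneg fun i _ => abs_nonneg _)]
        intro i
        rw [Real.dist_eq]
        exact Finset.single_le_sum (f := fun i => |u i - w i|) (fun i _ => abs_nonneg _)
          (Finset.mem_univ i)
      have h3 : |F u - F w| ≤ |(1 - Metric.infDist u S / δ) - (1 - Metric.infDist w S / δ)| := by
        simp only [hF]
        rw [max_comm 0, max_comm 0]
        exact abs_max_sub_max_le_abs (1 - Metric.infDist u S / δ) (1 - Metric.infDist w S / δ) 0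
      have h4 : (1 - Metric.infDist u S / δ) - (1 - Metric.infDist w S / δ) =
          -(1 / δ * (Metric.infDist u S - Metric.infDist w S)) := by ring
      rw [h4, abs_neg, abs_mul, abs_of_pos (by positivity : 0 < 1 / δ)] at h3
      exact h3.trans (mul_le_mul_of_nonneg_left (h1.trans h2) (by positivity))
  have hS : Symm F := by
    intro σ u
    have h1 : Metric.infDist (u ∘ σ) S = Metric.infDist u S := by
      refine infDist_inv (Φ := fun u => u ∘ σ) ?_ ?_ (fun u => hI.2 σ u) u
      · refine Isometry.of_dist_eq fun x y => ?_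
        apply le_antisymm
        · rw [dist_pi_le_iff dist_nonneg]
          exact fun i => dist_le_pi_dist x y (σ i)
        · rw [dist_pi_le_iff dist_nonneg]
          intro i
          have := dist_le_pi_dist (x ∘ σ) (y ∘ σ) (σ.symm i)
          simpa using this
      · intro w
        exact ⟨w ∘ σ.symm, by funext i; simp⟩
    simp only [hF, h1]
  have hFm : Measurable F := (cont_of_lip (by positivity) hL).measurable
  have hFb : ∀ u, |F u| ≤ 1 := fun u => by
    rw [abs_of_nonneg (hF0 u)]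
    exact hF1 u
  have hIb : ∀ T : Set (Fin 3 → ℝ), ∀ u, |T.indicator (fun _ => (1 : ℝ)) u| ≤ 1 := by
    intro T u
    by_cases hu : u ∈ T
    · rw [Set.indicator_of_mem hu, abs_one]
    · rw [Set.indicator_of_notMem hu, abs_zero]
      exact zero_le_one
  have hlow : haarM m (S.indicator fun _ => 1) ≤ haarM m F := by
    refine haarM_mono m (measurable_const.indicator hSm) hFm (hIb S) hFb fun u => ?_
    by_cases hu : u ∈ S
    · rw [Set.indicator_of_mem hu, hFS u hu]
    · rw [Set.indicator_of_notMem hu]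
      exact hF0 u
  have hopen : MeasurableSet {u : Fin 3 → ℝ | Metric.infDist u S < δ} :=
    (isOpen_lt (Metric.continuous_infDist_pt S) continuous_const).measurableSet
  have hup : haarM m F ≤ haarM m ({u | Metric.infDist u S < δ}.indicator fun _ => 1) := by
    refine haarM_mono m hFm (measurable_const.indicator hopen) hFb (hIb _) fun u => ?_
    by_cases hu : Metric.infDist u S < δ
    · rw [Set.indicator_of_mem (show u ∈ {u | Metric.infDist u S < δ} from hu)]
      exact hF1 u
    · rw [Set.indicator_of_notMem (show u ∉ {u | Metric.infDist u S < δ} from hu), hFn u hu]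
  have hN1 := hN F (1 / δ) (by positivity) hL hS
  have h1 : 1 / δ * (6 * Real.pi ^ 2 / ((D : ℝ) + 2) +
      (64 / ((D : ℝ) + 2) - 6 * Real.pi ^ 2 / (D + 2))) = δ := by
    have h2 : 6 * Real.pi ^ 2 / ((D : ℝ) + 2) +
      (64 / ((D : ℝ) + 2) - 6 * Real.pi ^ 2 / (D + 2)) = 64 / ((D : ℝ) + 2) := by ring
    rw [h2, hδe, ← hsq]
    field_simp
    norm_num
    ring
  rw [h1] at hN1
  have h2 := abs_le.1 hN1
  have h3 : average (fun v => F (t v)) N ≤ proportion {v | Metric.infDist (t v) S < δ} N := by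
    refine mean_mono (fun v => ?_) N
    by_cases hu : Metric.infDist (t v) S < δ
    · rw [Set.indicator_of_mem (show v ∈ {v | Metric.infDist (t v) S < δ} from hu)]
      exact hF1 _
    · rw [Set.indicator_of_notMem (show v ∉ {v | Metric.infDist (t v) S < δ} from hu), hFn _ hu]
  have h4 : proportion {v | t v ∈ S} N ≤ average (fun v => F (t v)) N := by
    refine mean_mono (fun v => ?_) N
    by_cases hu : t v ∈ S
    · rw [Set.indicator_of_mem (show v ∈ {v | t v ∈ S} from hu), hFS _ hu]
    · rw [Set.indicator_of_notMem (show v ∉ {v | t v ∈ S} from hu)]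
      exact hF0 _
  constructor
  · linarith [h2.1]
  · linarith [h2.2]

end Pool.Agent.H63.G3
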