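import Pool.Agent.H63.G3.Defs
set_option autoImplicit false
set_option linter.unusedSectionVars false

namespace Pool.Agent.H63.G3

open NumberField IsDedekindDomain Filter Topology Finset ComplexConjugate
open Pool.Agent.TH553.ST Pool.Agent.TH553.RS Pool.Agent.W540.BE
open Pool.Agent.X289.Main Pool.Agent.X289.Al

variable {K : Type} [Field K] [NumberField K]
  {t : HeightOneSpectrum (𝓞 K) → Fin 3 → ℝ}

theorem norm_ex (t : Fin 3 → ℝ) (i : Fin 3) : ‖ex t i‖ = 1 := Complex.norm_exp_ofReal_mul_I _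

theorem norm_mono (a : ℕ) (t : Fin 3 → ℝ) (p : ℕ × ℕ) : ‖mono a (ex t) p‖ = 1 := by
  unfold mono
  rw [norm_mul, norm_mul, norm_pow, norm_pow, norm_pow, norm_ex, norm_ex, norm_ex, one_pow, one_pow,
    one_pow, one_mul, one_mul]

/-- the local parameters -/
noncomputable def par (t : HeightOneSpectrum (𝓞 K) → Fin 3 → ℝ) (a b : ℕ) (c : ℤ)
    (v : HeightOneSpectrum (𝓞 K)) (p : (ℕ × ℕ) × (ℕ × ℕ)) : ℂ :=
  mono a (ex (t v)) p.1 * conj (mono b (ex (t v)) p.2) *
      Complex.exp ((c * (t v 0 + t v 1 + t v 2) : ℝ) * Complex.I)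

theorem norm_par (a b : ℕ) (c : ℤ) (v : HeightOneSpectrum (𝓞 K)) (p : (ℕ × ℕ) × (ℕ × ℕ)) :
    ‖par t a b c v p‖ = 1 := by
  unfold par
  rw [norm_mul, norm_mul, norm_mono, RCLike.norm_conj, norm_mono, Complex.norm_exp_ofReal_mul_I,
    one_mul, one_mul]

theorem sum_par (a b : ℕ) (c : ℤ) (v : HeightOneSpectrum (𝓞 K)) :
    ∑ p ∈ tri a ×ˢ tri b, par t a b c v p = bas a b c (t v) := by
  unfold bas hc par
  rw [Finset.sum_product, map_sum, Finset.sum_mul_sum, Finset.sum_mul]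
  refine Finset.sum_congr rfl fun i _ => ?_
  rw [Finset.sum_mul]

theorem LFun3_eq (a b : ℕ) (c : ℤ) (s : ℂ) : LFun3 t a b c s =
    LA (fun v (k : ↥(tri a ×ˢ tri b)) => par t a b c v k) s := by
  unfold LFun3 LA
  refine tprod_congr fun v => ?_
  congr 1
  exact (Finset.prod_coe_sort (tri a ×ˢ tri b) fun p =>
    (1 - par t a b c v p * (Ideal.absNorm v.asIdeal : ℂ) ^ (-s))).symm

theorem hc_conj (a : ℕ) (x : Fin 3 → ℂ) : hc a x * conj (hc a x) = ((‖hc a x‖ ^ 2 : ℝ) : ℂ) := by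
  rw [Complex.mul_conj, Complex.normSq_eq_norm_sq]

theorem bas_diag (a : ℕ) (u : Fin 3 → ℝ) : bas a a 0 u = ((‖hc a (ex u)‖ ^ 2 : ℝ) : ℂ) := by
  unfold bas
  rw [hc_conj]
  simp

theorem mn_ofReal (f : HeightOneSpectrum (𝓞 K) → ℝ) (N : ℕ) :
    mn (fun v => (f v : ℂ)) N = ((mn f N : ℝ) : ℂ) := by
  unfold mn
  rw [Complex.real_smul, smul_eq_mul]
  push_cast
  rfl

variable {E : Type} {d1 d2 : E → ℕ} {m : ℕ}

theorem avg_bas (h : Form3 t d1 d2 m) {a b : ℕ} (ha : Regular3 d1 d2 a) (hb : Regular3 d1 d2 b)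
    (c : ℤ) : Tendsto (mn fun v => bas a b c (t v)) atTop
      (𝓝 (if a = b ∧ (m : ℤ) ∣ c then 1 else 0)) := by
  by_cases hab : a = b ∧ (m : ℤ) ∣ c
  · rw [if_pos hab]
    obtain ⟨rfl, j, hj⟩ := hab
    have h1 : ∀ v, bas a a c (t v) = ((‖hc a (ex (t v))‖ ^ 2 : ℝ) : ℂ) := by
      intro v
      rw [← bas_diag]
      unfold bas
      congr 1
      obtain ⟨k, hk⟩ := h.det v
      have h2 : (((c : ℝ) * (t v 0 + t v 1 + t v 2) : ℝ) : ℂ) * Complex.I =
          ((j * k : ℤ) : ℂ) * (2 * Real.pi * Complex.I) := by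
        rw [hj]
        have h3 : (((m : ℤ) * j : ℤ) : ℝ) * (t v 0 + t v 1 + t v 2) = j * k * (2 * Real.pi) := by
          push_cast
          linear_combination (j : ℝ) * hk
        rw [h3]
        push_cast
        ring
      have h4 : ((((0 : ℤ) : ℝ) * (t v 0 + t v 1 + t v 2) : ℝ) : ℂ) * Complex.I = 0 := by simp
      rw [h2, h4, Complex.exp_int_mul_two_pi_mul_I, Complex.exp_zero]
    have h2 : Tendsto (mn fun v => ‖hc a (ex (t v))‖ ^ 2) atTop (𝓝 ((1 : ℤ) : ℝ)) := by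
      refine avg_LA (α := fun v (k : ↥(tri a ×ˢ tri a)) => par t a a 0 v k)
        (fun v k => norm_par a a 0 v k) (fun v => ?_) (c := 1) fun τ => ?_
      · rw [Finset.sum_coe_sort (tri a ×ˢ tri a) fun p => par t a a 0 v p, sum_par, bas_diag]
      · obtain ⟨Λ, h5, h6⟩ := h.known a a ha ha 0 τ
        refine ⟨Λ, ⟨h5.1, ?_⟩, ?_⟩
        · filter_upwards [h5.2] with s hs h7
          rw [hs h7, LFun3_eq]
        · rw [h6]
          by_cases hτ : τ = 0
          · rw [if_pos ⟨rfl, dvd_zero _, hτ⟩, if_pos hτ]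
            rfl
          · rw [if_neg (fun h => hτ h.2.2), if_neg hτ]
            rfl
    rw [Int.cast_one] at h2
    have h3 := (Complex.continuous_ofReal.tendsto _).comp h2
    rw [Complex.ofReal_one] at h3
    refine h3.congr fun N => ?_
    simp only [Function.comp]
    rw [← mn_ofReal]
    congr 1
    funext v
    exact (h1 v).symm
  · rw [if_neg hab]
    set e := Fintype.equivFin ↥(tri a ×ˢ tri b) with he
    have h1 : (fun v => bas a b c (t v)) = fun v => ∑ j : Fin (Fintype.card ↥(tri a ×ˢ tri b)),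
        par t a b c v (e.symm j) := by
      funext v
      rw [← sum_par, ← Finset.sum_coe_sort (tri a ×ˢ tri b) fun p => par t a b c v p]
      exact (Fintype.sum_equiv e.symm _ _ fun j => rfl).symm
    rw [h1]
    refine taub (α := fun v j => par t a b c v (e.symm j)) (fun v j => norm_par a b c v _)
      (L := LFun3 t a b c) (fun s _ => ?_) fun τ => ?_
    · rw [LFun3_eq, LA_fin]
      rfl
    · obtain ⟨Λ, h5, h6⟩ := h.known a b ha hb c τ
      rw [if_neg (fun h => hab ⟨h.1, h.2.1⟩)] at h6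
      have h7 : meromorphicOrderAt Λ (1 + τ * Complex.I) = ((0 : ℤ) : WithTop ℤ) := h6
      obtain ⟨g, hg1, hg2, hg3⟩ := (meromorphicOrderAt_eq_int_iff h5.1).1 h7
      refine ⟨g, hg1, hg2, ?_⟩
      rw [eventually_nhdsWithin_iff] at hg3
      filter_upwards [hg3, h5.2] with s hs1 hs2 hs
      have hne : s ∈ ({1 + (τ : ℂ) * Complex.I}ᶜ : Set ℂ) := by
        intro h8
        have h9 : s = 1 + (τ : ℂ) * Complex.I := h8
        rw [h9] at hs
        simp at hs
      have h8 := hs1 hne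
      rw [zpow_zero, one_smul] at h8
      rw [← h8, hs2 hs]

end Pool.Agent.H63.G3
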